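import Mathlib
import Pool.Agent.H10.IEop

set_option autoImplicit false

namespace Pool.Agent.Results.MP_b124ce_co.Counter

open Set

/-- `f` is an IE-operator on the ground set `α`: (cl1), (cl2), (cl3), (cl4'). -/
def IsIE {α : Type} (f : Set α → Set α) : Prop :=
  (∀ X, X ⊆ f X) ∧ (∀ X Y, X ⊆ Y → f X ⊆ f Y) ∧ (∀ X, f (f X) = f X) ∧
  ∀ X Y p, p ∈ f Y → p ∉ f (Y \ X) → ∃ x ∈ X, x ∈ f (insert p (Y \ {x}))

/-- `X` is independent for `f`. -/
def Indep {α : Type} (f : Set α → Set α) (X : Set α) : Prop := ∀ x ∈ X, x ∉ f (X \ {x})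

/-- `X` is spanning for `f`. -/
def Spanning {α : Type} (f : Set α → Set α) (X : Set α) : Prop := f X = univ

/-- condition (C) -/
def CondC {α : Type} (f : Set α → Set α) : Prop :=
  ∀ Y p, p ∈ f Y → ∃ U, Minimal (fun W => W ⊆ Y ∧ p ∈ f W) U ∧ Indep f U

/-- condition (H) -/
def CondH {α : Type} (f : Set α → Set α) : Prop :=
  ∀ Y p, p ∉ f Y → ∃ V, Maximal (fun W => Y ⊆ W ∧ p ∉ f W) V ∧ Spanning f (insert p V)

/-- the restriction `f_X`, an operator on the ground set `X`: `f_X(Y) = f(Y) ∩ X`. -/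
def restrict {α : Type} (f : Set α → Set α) (X : Set α) : Set X → Set X :=
  fun Y => Subtype.val ⁻¹' (f (Subtype.val '' Y))

theorem result : ∃ (α : Type) (f : Set α → Set α) (X : Set α),
    IsIE f ∧ CondC f ∧ CondH f ∧ ¬ CondH (restrict f X) := by
  obtain ⟨𝓑, hg, hne, hc, hY, hV⟩ := Pool.Agent.H10.IEop.exists_family
  refine ⟨Pool.Agent.H10.IEop.S, Pool.Agent.H10.IEop.op 𝓑, Pool.Agent.H10.IEop.X0,
    ⟨Pool.Agent.H10.IEop.op_ext, fun _ _ h => Pool.Agent.H10.IEop.op_mono h,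
      Pool.Agent.H10.IEop.op_idem, Pool.Agent.H10.IEop.op_cl4 hg⟩,
    Pool.Agent.H10.IEop.op_C hg hne, Pool.Agent.H10.IEop.op_H hg hc, ?_⟩
  intro H
  have hp : ((1, 0) : Pool.Agent.H10.IEop.S) ∈ Pool.Agent.H10.IEop.X0 := Or.inr rfl
  have hYX : Pool.Agent.H10.IEop.Y0 ⊆ Pool.Agent.H10.IEop.X0 := fun x hx => Or.inl hx
  obtain ⟨V, h1, h2⟩ := H (Subtype.val ⁻¹' Pool.Agent.H10.IEop.Y0) ⟨(1, 0), hp⟩ (by
    unfold restrict
    rw [Subtype.image_preimage_coe, inter_eq_right.2 hYX, Pool.Agent.H10.IEop.op_of_nsp hY]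
    simp [Pool.Agent.H10.IEop.Y0])
  have hYV : Pool.Agent.H10.IEop.Y0 ⊆ Subtype.val '' V := fun x hx =>
    ⟨⟨x, hYX hx⟩, h1.prop.1 hx, rfl⟩
  rcases hV (Subtype.val '' V) hYV (Subtype.coe_image_subset _ _) with ⟨x, -, B, hB, hsub⟩ | h
  · apply h1.prop.2
    unfold restrict
    rw [Pool.Agent.H10.IEop.op_of_sp ⟨B, hB, hsub.trans sdiff_subset⟩]
    trivial
  · obtain ⟨h3, h4⟩ := h (1, 0) hp
    apply h4
    intro x hx
    have h5 : (⟨x, hx⟩ : Pool.Agent.H10.IEop.X0) ∈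
        restrict (Pool.Agent.H10.IEop.op 𝓑) Pool.Agent.H10.IEop.X0 (insert ⟨(1, 0), hp⟩ V) := by
      rw [h2]; trivial
    unfold restrict at h5
    rw [image_insert_eq, Pool.Agent.H10.IEop.op_of_nsp h3] at h5
    exact h5

end Pool.Agent.Results.MP_b124ce_co.Counter
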